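import Pool.Agent.X27.MV.Gen

/-! Small sets of points of a cube have many projections. -/

set_option autoImplicit false

namespace Pool.Agent.X27.MV

open Finset Classical

/-- The least sum of two numbers whose product is at least `t`, for `t ≤ 8`. -/
def phi (t : ℕ) : ℕ :=
  if t = 0 then 0 else if t = 1 then 2 else if t = 2 then 3 else if t ≤ 4 then 4
  else if t ≤ 6 then 5 else 6

theorem phi_le (t u v : ℕ) (ht : t ≤ 8) (h : t ≤ u * v) : phi t ≤ u + v := by
  by_contra hcon
  have h6 : phi t ≤ 6 := by unfold phi; split_ifs <;> omega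
  have hu : u < 6 := by omega
  have hv : v < 6 := by omega
  unfold phi at hcon
  interval_cases u <;> interval_cases v <;> simp at h hcon <;> (split_ifs at hcon <;> omega)

/-- A lower bound for the sum of `phi` over the parts of a partition of `m` into parts `≤ c`. -/
def G (c m : ℕ) : ℕ :=
  if c = 1 then 2 * m else if c = 2 then (3 * m + 1) / 2 else if c = 3 then (4 * m + 2) / 3
  else if c ≤ 5 then m
  else if c = 6 then 5 * (m / 6) + phi (m % 6)
  else if c = 7 then (5 * m + 5) / 6
  else 6 * (m / 8) + phi (m % 8)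

theorem G_add (c m t : ℕ) (hc : 1 ≤ c) (hc8 : c ≤ 8) (ht : t ≤ c) :
    G c (m + t) ≤ G c m + phi t := by
  unfold G phi
  interval_cases c <;> interval_cases t <;> (try simp) <;> (try split_ifs) <;> omega

theorem G_sum {α : Type*} (s : Finset α) (t w : α → ℕ) (c : ℕ) (hc : 1 ≤ c) (hc8 : c ≤ 8)
    (ht : ∀ x ∈ s, t x ≤ c) (hw : ∀ x ∈ s, phi (t x) ≤ w x) :
    G c (∑ x ∈ s, t x) ≤ ∑ x ∈ s, w x := by
  induction s using Finset.induction_on with
  | empty =>
    simp only [sum_empty]
    unfold G phi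
    interval_cases c <;> decide
  | insert a s ha ih =>
    rw [sum_insert ha, sum_insert ha, add_comm (t a), add_comm (w a)]
    have h1 := ih (fun x hx => ht x (mem_insert_of_mem hx))
      (fun x hx => hw x (mem_insert_of_mem hx))
    have h2 := G_add c (∑ x ∈ s, t x) (t a) hc hc8 (ht a (mem_insert_self _ _))
    have h3 := hw a (mem_insert_self _ _)
    omega

theorem G_val (c e : ℕ) (hc : 1 ≤ c) (hc8 : c ≤ 8) (h3 : 3 ≤ e) (h21 : e ≤ 21) (h18 : e ≠ 18) :
    e + 4 ≤ G c e + c := by
  interval_cases c <;> interval_cases e <;> first | (exfalso; exact h18 rfl) | decide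

/-- Counting by layers: if the projection along the first direction has at most `8` points. -/
theorem layers {α β γ : Type*} [DecidableEq α] [DecidableEq β] [DecidableEq γ] (S : Finset (α × β × γ)) (e : ℕ) (hS : S.card = e) (h3 : 3 ≤ e)
    (h21 : e ≤ 21) (h18 : e ≠ 18) (h8 : (S.image (fun t => (t.2.1, t.2.2))).card ≤ 8) :
    e + 4 ≤ (S.image (fun t => (t.1, t.2.1))).card + (S.image (fun t => (t.1, t.2.2))).card +
      (S.image (fun t => (t.2.1, t.2.2))).card := by
  set c := (S.image (fun t => (t.2.1, t.2.2))).card with hc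
  have hc1 : 1 ≤ c := by
    have : S.Nonempty := Finset.card_pos.mp (by omega)
    exact Finset.card_pos.mpr (this.image _)
  let t : α → ℕ := fun x => (S.filter (fun s => s.1 = x)).card
  let u : α → ℕ := fun x => ((S.filter (fun s => s.1 = x)).image (fun s => s.2.1)).card
  let v : α → ℕ := fun x => ((S.filter (fun s => s.1 = x)).image (fun s => s.2.2)).card
  have e1 : ∑ x ∈ S.image (fun s => s.1), t x = e := by
    rw [← hS]
    exact (Finset.card_eq_sum_card_image (fun s : α × β × γ => s.1) S).symm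
  have e2 : ∑ x ∈ S.image (fun s => s.1), u x = (S.image (fun t => (t.1, t.2.1))).card := by
    rw [Finset.card_eq_sum_card_fiberwise (f := fun p : α × β => p.1)
      (t := S.image (fun s => s.1))]
    · refine sum_congr rfl fun x _ => ?_
      refine Finset.card_bij (fun b _ => (x, b)) ?_ ?_ ?_
      · intro b hb
        obtain ⟨s, hs, rfl⟩ := mem_image.mp hb
        obtain ⟨hs1, hs2⟩ := mem_filter.mp hs
        exact mem_filter.mpr ⟨mem_image.mpr ⟨s, hs1, by rw [hs2]⟩, rfl⟩
      · intro b _ b' _ h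
        exact (Prod.mk.inj h).2
      · rintro ⟨x', b⟩ h
        obtain ⟨h1, h2⟩ := mem_filter.mp h
        obtain ⟨s, hs, h3⟩ := mem_image.mp h1
        simp only at h2
        subst h2
        obtain ⟨h4, h5⟩ := Prod.mk.inj h3
        exact ⟨b, mem_image.mpr ⟨s, mem_filter.mpr ⟨hs, h4⟩, h5⟩, rfl⟩
    · intro p hp
      obtain ⟨s, hs, rfl⟩ := mem_image.mp (mem_coe.mp hp)
      exact mem_coe.mpr (mem_image_of_mem _ hs)
  have e3 : ∑ x ∈ S.image (fun s => s.1), v x = (S.image (fun t => (t.1, t.2.2))).card := by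
    rw [Finset.card_eq_sum_card_fiberwise (f := fun p : α × γ => p.1)
      (t := S.image (fun s => s.1))]
    · refine sum_congr rfl fun x _ => ?_
      refine Finset.card_bij (fun b _ => (x, b)) ?_ ?_ ?_
      · intro b hb
        obtain ⟨s, hs, rfl⟩ := mem_image.mp hb
        obtain ⟨hs1, hs2⟩ := mem_filter.mp hs
        exact mem_filter.mpr ⟨mem_image.mpr ⟨s, hs1, by rw [hs2]⟩, rfl⟩
      · intro b _ b' _ h
        exact (Prod.mk.inj h).2
      · rintro ⟨x', b⟩ h
        obtain ⟨h1, h2⟩ := mem_filter.mp h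
        obtain ⟨s, hs, h3⟩ := mem_image.mp h1
        simp only at h2
        subst h2
        obtain ⟨h4, h5⟩ := Prod.mk.inj h3
        exact ⟨b, mem_image.mpr ⟨s, mem_filter.mpr ⟨hs, h4⟩, h5⟩, rfl⟩
    · intro p hp
      obtain ⟨s, hs, rfl⟩ := mem_image.mp (mem_coe.mp hp)
      exact mem_coe.mpr (mem_image_of_mem _ hs)
  have htc : ∀ x ∈ S.image (fun s => s.1), t x ≤ c := by
    intro x _
    refine Finset.card_le_card_of_injOn (fun s => (s.2.1, s.2.2)) ?_ ?_
    · intro s hs
      exact mem_coe.mpr (mem_image_of_mem (fun t : α × β × γ => (t.2.1, t.2.2))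
        (mem_filter.mp (mem_coe.mp hs)).1)
    · rintro ⟨a, b, d⟩ hs ⟨a', b', d'⟩ hs' h
      have h1 := (mem_filter.mp (mem_coe.mp hs)).2
      have h2 := (mem_filter.mp (mem_coe.mp hs')).2
      simp only [Prod.mk.injEq] at h h1 h2 ⊢
      exact ⟨h1.trans h2.symm, h⟩
  have hw : ∀ x ∈ S.image (fun s => s.1), phi (t x) ≤ u x + v x := by
    intro x hx
    refine phi_le _ _ _ ((htc x hx).trans h8) ?_
    rw [← card_product]
    refine Finset.card_le_card_of_injOn (fun s => (s.2.1, s.2.2)) ?_ ?_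
    · intro s hs
      exact mem_coe.mpr (mem_product.mpr
        ⟨mem_image_of_mem (fun t : α × β × γ => t.2.1) (mem_coe.mp hs),
        mem_image_of_mem (fun t : α × β × γ => t.2.2) (mem_coe.mp hs)⟩)
    · rintro ⟨a, b, d⟩ hs ⟨a', b', d'⟩ hs' h
      have h1 := (mem_filter.mp (mem_coe.mp hs)).2
      have h2 := (mem_filter.mp (mem_coe.mp hs')).2
      simp only [Prod.mk.injEq] at h h1 h2 ⊢
      exact ⟨h1.trans h2.symm, h⟩
  have h := G_sum (S.image (fun s => s.1)) t (fun x => u x + v x) c hc1 h8 htc hw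
  rw [e1, sum_add_distrib, e2, e3] at h
  have h' := G_val c e hc1 h8 h3 h21 h18
  omega

theorem cube_free21 (k e : ℕ) (h3 : 3 ≤ e) (h21 : e ≤ 21) (h18 : e ≠ 18) :
    ∀ T ⊆ cube k, T.card = e → e + 3 < spanned T := by
  intro T hT hc
  by_contra hcon
  push Not at hcon
  unfold spanned at hcon
  have key : ∀ (ψ : (Fin k × Fin k) × (Fin k × Fin k) × (Fin k × Fin k) →
      Fin k × Fin k × Fin k), Set.InjOn ψ T → (T.image ψ).card = e := by
    intro ψ hψ
    rw [card_image_of_injOn hψ, hc]
  have mem : ∀ t ∈ T, t.1.1 = t.2.1.1 ∧ t.1.2 = t.2.2.1 ∧ t.2.1.2 = t.2.2.2 := by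
    rintro ⟨⟨a, b⟩, ⟨c, d⟩, f, g⟩ ht
    exact (mem_cube _ _ _ _ _ _ _).mp (hT ht)
  have inj : ∀ (ψ : (Fin k × Fin k) × (Fin k × Fin k) × (Fin k × Fin k) →
      Fin k × Fin k × Fin k), (∀ s ∈ T, ∀ t ∈ T, ψ s = ψ t →
        s.1.1 = t.1.1 ∧ s.1.2 = t.1.2 ∧ s.2.1.2 = t.2.1.2) → Set.InjOn ψ T := by
    intro ψ h s hs t ht hst
    obtain ⟨g1, g2, g3⟩ := h s (mem_coe.mp hs) t (mem_coe.mp ht) hst
    obtain ⟨m1, m2, m3⟩ := mem s (mem_coe.mp hs)
    obtain ⟨n1, n2, n3⟩ := mem t (mem_coe.mp ht)
    obtain ⟨⟨a, b⟩, ⟨c, d⟩, f, g⟩ := s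
    obtain ⟨⟨a', b'⟩, ⟨c', d'⟩, f', g'⟩ := t
    simp only at g1 g2 g3 m1 m2 m3 n1 n2 n3
    subst m1 m2 m3 n1 n2 n3 g1 g2 g3
    rfl
  -- the three ways to cut into layers
  let ψ1 : (Fin k × Fin k) × (Fin k × Fin k) × (Fin k × Fin k) → Fin k × Fin k × Fin k :=
    fun t => (t.1.1, t.1.2, t.2.1.2)
  let ψ2 : (Fin k × Fin k) × (Fin k × Fin k) × (Fin k × Fin k) → Fin k × Fin k × Fin k :=
    fun t => (t.1.2, t.1.1, t.2.1.2)
  let ψ3 : (Fin k × Fin k) × (Fin k × Fin k) × (Fin k × Fin k) → Fin k × Fin k × Fin k :=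
    fun t => (t.2.1.2, t.1.1, t.1.2)
  have c1 := key ψ1 (inj ψ1 fun s _ t _ h => by
    simp only [ψ1, Prod.mk.injEq] at h; exact ⟨h.1, h.2.1, h.2.2⟩)
  have c2 := key ψ2 (inj ψ2 fun s _ t _ h => by
    simp only [ψ2, Prod.mk.injEq] at h; exact ⟨h.2.1, h.1, h.2.2⟩)
  have c3 := key ψ3 (inj ψ3 fun s _ t _ h => by
    simp only [ψ3, Prod.mk.injEq] at h; exact ⟨h.2.1, h.2.2, h.1⟩)
  have p1 : ((T.image ψ1).image (fun t => (t.1, t.2.1))).card = (T.image (fun t => t.1)).card := by
    rw [image_image]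
    congr 1
  have p2 : ((T.image ψ1).image (fun t => (t.1, t.2.2))).card =
      (T.image (fun t => t.2.1)).card := by
    rw [image_image]
    refine congrArg card (image_congr fun t ht => ?_)
    exact Prod.ext (mem t ht).1 rfl
  have p3 : ((T.image ψ1).image (fun t => (t.2.1, t.2.2))).card =
      (T.image (fun t => t.2.2)).card := by
    rw [image_image]
    refine congrArg card (image_congr fun t ht => ?_)
    exact Prod.ext (mem t ht).2.1 (mem t ht).2.2
  have q1 : ((T.image ψ2).image (fun t => (t.1, t.2.1))).card =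
      (T.image (fun t => t.1)).card := by
    rw [← card_image_of_injective (T.image (fun t => t.1)) Prod.swap_injective, image_image,
      image_image]
    congr 1
  have q2 : ((T.image ψ2).image (fun t => (t.1, t.2.2))).card =
      (T.image (fun t => t.2.2)).card := by
    rw [image_image]
    refine congrArg card (image_congr fun t ht => ?_)
    exact Prod.ext (mem t ht).2.1 (mem t ht).2.2
  have q3 : ((T.image ψ2).image (fun t => (t.2.1, t.2.2))).card =
      (T.image (fun t => t.2.1)).card := by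
    rw [image_image]
    refine congrArg card (image_congr fun t ht => ?_)
    exact Prod.ext (mem t ht).1 rfl
  have r1 : ((T.image ψ3).image (fun t => (t.1, t.2.1))).card =
      (T.image (fun t => t.2.1)).card := by
    rw [← card_image_of_injective (T.image (fun t => t.2.1)) Prod.swap_injective, image_image,
      image_image]
    refine congrArg card (image_congr fun t ht => ?_)
    exact Prod.ext rfl (mem t ht).1
  have r2 : ((T.image ψ3).image (fun t => (t.1, t.2.2))).card =
      (T.image (fun t => t.2.2)).card := by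
    rw [← card_image_of_injective (T.image (fun t => t.2.2)) Prod.swap_injective, image_image,
      image_image]
    refine congrArg card (image_congr fun t ht => ?_)
    exact Prod.ext (mem t ht).2.2 (mem t ht).2.1
  have r3 : ((T.image ψ3).image (fun t => (t.2.1, t.2.2))).card =
      (T.image (fun t => t.1)).card := by
    rw [image_image]
    congr 1
  have l1 := layers (T.image ψ1) e c1 h3 h21 h18
  have l2 := layers (T.image ψ2) e c2 h3 h21 h18
  have l3 := layers (T.image ψ3) e c3 h3 h21 h18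
  have hcon' : (T.image (fun t => t.1)).card + (T.image (fun t => t.2.1)).card +
      (T.image (fun t => t.2.2)).card ≤ e + 3 := by
    refine le_trans (le_of_eq ?_) hcon
    exact congrArg₂ (· + ·) (congrArg₂ (· + ·) (ci _ _ _ _) (ci _ _ _ _)) (ci _ _ _ _)
  clear hcon
  omega

end Pool.Agent.X27.MV
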