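import Mathlib

/-! Triple systems closed under Mal'cev operations: the bound for linear systems. -/

set_option autoImplicit false

namespace Pool.Agent.X27.MV

open Finset Classical

universe u v w

/-- The number of vertices spanned by a set of triples: the number of its first coordinates, plus
the number of its second coordinates, plus the number of its third coordinates. -/
noncomputable def spanned {X : Type u} {Y : Type v} {Z : Type w} (T : Finset (X × Y × Z)) : ℕ :=
  (T.image (fun t => t.1)).card + (T.image (fun t => t.2.1)).card +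
    (T.image (fun t => t.2.2)).card

/-- A set with a map into itself has almost invariant subsets of all sizes. -/
theorem almost {Y : Type v} (C : Finset Y) (σ : Y → Y) (hσ : ∀ y ∈ C, σ y ∈ C) :
    ∀ m : ℕ, m < C.card → ∃ S ⊆ C, ∃ w ∈ C, w ∉ S ∧ S.card = m ∧
      (insert w (S ∪ S.image σ)).card ≤ m + 1 := by
  intro m
  induction m with
  | zero =>
    intro h
    obtain ⟨w, hw⟩ := Finset.card_pos.mp h
    exact ⟨∅, by simp, w, hw, by simp, by simp, by simp⟩
  | succ m ih =>
    intro h
    obtain ⟨S, hS, w, hw, hwS, hc, hle⟩ := ih (by omega)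
    have h1 : (insert w S).card = m + 1 := by rw [card_insert_of_notMem hwS, hc]
    have h2 : insert w S ⊆ C := insert_subset hw hS
    have h3 : (insert w S) ∪ (insert w S).image σ ⊆ C := by
      refine union_subset h2 ?_
      intro y hy
      obtain ⟨z, hz, rfl⟩ := mem_image.mp hy
      exact hσ z (h2 hz)
    have h4 : ((insert w S) ∪ (insert w S).image σ).card ≤ m + 2 := by
      have h5 : (insert w S) ∪ (insert w S).image σ ⊆
          insert (σ w) (insert w (S ∪ S.image σ)) := by
        intro y hy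
        simp only [mem_union, mem_insert, mem_image, image_insert] at hy ⊢
        tauto
      refine (card_le_card h5).trans ((card_insert_le _ _).trans ?_)
      omega
    by_cases h6 : ∃ v ∈ (insert w S) ∪ (insert w S).image σ, v ∉ insert w S
    · obtain ⟨v, hv, hv2⟩ := h6
      refine ⟨insert w S, h2, v, h3 hv, hv2, h1, ?_⟩
      rw [insert_eq_self.mpr hv]
      exact h4
    · push Not at h6
      obtain ⟨v, hv, hv2⟩ := Finset.exists_mem_notMem_of_card_lt_card (s := insert w S) (t := C)
        (by omega)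
      refine ⟨insert w S, h2, v, hv, hv2, h1, ?_⟩
      refine (card_insert_le _ _).trans ?_
      have := card_le_card (show (insert w S) ∪ (insert w S).image σ ⊆ insert w S from
        fun a ha => h6 a ha)
      omega

/-- Two rows of a partial Latin square which differ by a permutation of the columns. -/
theorem config {X : Type u} {Y : Type v} {Z : Type w} (H : Finset (X × Y × Z)) (e : ℕ)
    (x x' : X) (hx : x ≠ x') (C : Finset Y) (hC : e / 2 < C.card) (g : Y → Z) (σ : Y → Y)
    (h1 : ∀ y ∈ C, (x, y, g y) ∈ H) (h2 : ∀ y ∈ C, σ y ∈ C)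
    (h3 : ∀ y ∈ C, (x', σ y, g y) ∈ H) (hg : ∀ y ∈ C, ∀ y' ∈ C, g y = g y' → y = y') :
    ∃ T ⊆ H, T.card = e ∧ spanned T ≤ e + 3 := by
  obtain ⟨S, hS, w, hw, hwS, hc, hle⟩ := almost C σ h2 (e / 2) hC
  obtain ⟨S', hSS, hS', hc', hle'⟩ : ∃ S' : Finset Y, S ⊆ S' ∧ S' ⊆ C ∧
      S'.card + e / 2 = e ∧ (S' ∪ S.image σ).card ≤ e / 2 + 1 := by
    rcases Nat.even_or_odd' e with ⟨m, hm | hm⟩
    · exact ⟨S, subset_rfl, hS, by omega, (card_le_card (subset_insert _ _)).trans hle⟩
    · refine ⟨insert w S, subset_insert _ _, insert_subset hw hS, ?_, ?_⟩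
      · rw [card_insert_of_notMem hwS]; omega
      · rw [insert_union]; exact hle
  refine ⟨S'.image (fun y => (x, y, g y)) ∪ S.image (fun y => (x', σ y, g y)), ?_, ?_, ?_⟩
  · intro t ht
    rcases mem_union.mp ht with ht | ht
    · obtain ⟨y, hy, rfl⟩ := mem_image.mp ht
      exact h1 y (hS' hy)
    · obtain ⟨y, hy, rfl⟩ := mem_image.mp ht
      exact h3 y (hS hy)
  · rw [card_union_of_disjoint, card_image_of_injOn, card_image_of_injOn]
    · omega
    · intro y hy y' hy' h
      simp only [Prod.mk.injEq] at h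
      exact hg y (hS hy) y' (hS hy') h.2.2
    · intro y hy y' hy' h
      simp only [Prod.mk.injEq] at h
      exact h.2.1
    · rw [Finset.disjoint_left]
      intro t ht ht'
      obtain ⟨y, -, rfl⟩ := mem_image.mp ht
      obtain ⟨y', -, h⟩ := mem_image.mp ht'
      exact hx (congrArg Prod.fst h).symm
  · have a1 : ((S'.image (fun y => (x, y, g y)) ∪ S.image (fun y => (x', σ y, g y))).image
        (fun t => t.1)).card ≤ 2 := by
      refine (card_le_card (t := {x, x'}) ?_).trans (card_le_two)
      intro a ha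
      obtain ⟨t, ht, rfl⟩ := mem_image.mp ha
      rcases mem_union.mp ht with ht | ht
      · obtain ⟨y, -, rfl⟩ := mem_image.mp ht
        simp
      · obtain ⟨y, -, rfl⟩ := mem_image.mp ht
        simp
    have a2 : ((S'.image (fun y => (x, y, g y)) ∪ S.image (fun y => (x', σ y, g y))).image
        (fun t => t.2.1)).card ≤ e / 2 + 1 := by
      refine (card_le_card ?_).trans hle'
      intro a ha
      obtain ⟨t, ht, rfl⟩ := mem_image.mp ha
      rcases mem_union.mp ht with ht | ht
      · obtain ⟨y, hy, rfl⟩ := mem_image.mp ht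
        exact mem_union_left _ hy
      · obtain ⟨y, hy, rfl⟩ := mem_image.mp ht
        exact mem_union_right _ (mem_image_of_mem σ hy)
    have a3 : ((S'.image (fun y => (x, y, g y)) ∪ S.image (fun y => (x', σ y, g y))).image
        (fun t => t.2.2)).card ≤ S'.card := by
      refine (card_le_card (t := S'.image g) ?_).trans card_image_le
      intro a ha
      obtain ⟨t, ht, rfl⟩ := mem_image.mp ha
      rcases mem_union.mp ht with ht | ht
      · obtain ⟨y, hy, rfl⟩ := mem_image.mp ht
        exact mem_image_of_mem g hy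
      · obtain ⟨y, hy, rfl⟩ := mem_image.mp ht
        exact mem_image_of_mem g (hSS hy)
    unfold spanned
    omega

/-- The bound for linear systems whose projections to `X × Y` and `X × Z` are rectangular. -/
theorem core {X : Type u} {Y : Type v} {Z : Type w} [Fintype X] [Fintype Y] [Fintype Z]
    (H : Finset (X × Y × Z)) (e n : ℕ) (hX : Fintype.card X ≤ n) (hY : Fintype.card Y ≤ n)
    (hZ : Fintype.card Z ≤ n)
    (L1 : ∀ x y z z', (x, y, z) ∈ H → (x, y, z') ∈ H → z = z')
    (L2 : ∀ x y y' z, (x, y, z) ∈ H → (x, y', z) ∈ H → y = y')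
    (R1 : ∀ x x' y y' z z' z'', (x, y, z) ∈ H → (x', y, z') ∈ H → (x', y', z'') ∈ H →
      ∃ z''', (x, y', z''') ∈ H)
    (R2 : ∀ x x' y1 y y' z1 z, (x, y1, z1) ∈ H → (x, y, z) ∈ H → (x', y', z) ∈ H →
      ∃ y2, (x', y2, z1) ∈ H)
    (hfree : ∀ T ⊆ H, T.card = e → e + 3 < spanned T) :
    H.card ≤ 2 * n * max (Nat.sqrt n) (e / 2) := by
  set M := max (Nat.sqrt n) (e / 2) with hM
  let Yx : X → Finset Y := fun x => univ.filter (fun y => ∃ z, (x, y, z) ∈ H)
  let Xy : Y → Finset X := fun y => univ.filter (fun x => ∃ z, (x, y, z) ∈ H)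
  have key : ∀ x0 y0 z0, (x0, y0, z0) ∈ H → e / 2 < (Yx x0).card →
      (Xy y0).card * (Yx x0).card ≤ n := by
    intro x0 y0 z0 h0 hc
    have hex : ∀ x y, x ∈ Xy y0 → y ∈ Yx x0 → ∃ z, (x, y, z) ∈ H := by
      intro x y hx hy
      obtain ⟨z1, hz1⟩ := (mem_filter.mp hx).2
      obtain ⟨z2, hz2⟩ := (mem_filter.mp hy).2
      exact R1 x x0 y0 y z1 z0 z2 hz1 h0 hz2
    have : Nonempty Z := ⟨z0⟩
    have hex' : ∀ x y, ∃ z, x ∈ Xy y0 → y ∈ Yx x0 → (x, y, z) ∈ H := by
      intro x y
      by_cases h : x ∈ Xy y0 ∧ y ∈ Yx x0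
      · obtain ⟨z, hz⟩ := hex x y h.1 h.2
        exact ⟨z, fun _ _ => hz⟩
      · exact ⟨z0, fun h1 h2 => absurd ⟨h1, h2⟩ h⟩
    choose f hf using hex'
    rw [← card_product]
    refine le_trans ?_ hZ
    refine Finset.card_le_card_of_injOn (t := (univ : Finset Z)) (fun q => f q.1 q.2)
      (fun _ _ => mem_coe.mpr (mem_univ _)) ?_
    rintro ⟨x, y⟩ hq ⟨x', y'⟩ hq' heq
    simp only [coe_product, Set.mem_prod, mem_coe] at hq hq'
    simp only at heq
    have e1 := hf x y hq.1 hq.2
    have e2 := hf x' y' hq'.1 hq'.2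
    rw [← heq] at e2
    by_cases hxx : x = x'
    · subst hxx
      rw [L2 x y y' _ e1 e2]
    · exfalso
      have hσ : ∀ y1, ∃ y2, y1 ∈ Yx x0 → (x', y2, f x y1) ∈ H := by
        intro y1
        by_cases h : y1 ∈ Yx x0
        · obtain ⟨y2, hy2⟩ := R2 x x' y1 y y' _ _ (hf x y1 hq.1 h) e1 e2
          exact ⟨y2, fun _ => hy2⟩
        · exact ⟨y0, fun h' => absurd h' h⟩
      choose σ hσ using hσ
      obtain ⟨T, hT, hTc, hTs⟩ := config H e x x' hxx (Yx x0) hc (f x) σ
        (fun y1 h => hf x y1 hq.1 h)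
        (fun y1 h => by
          obtain ⟨z1, hz1⟩ := (mem_filter.mp hq'.1).2
          exact mem_filter.mpr ⟨mem_univ _, R1 x0 x' y0 (σ y1) z0 z1 _ h0 hz1 (hσ y1 h)⟩)
        hσ
        (fun y1 h1 y2 h2 h => L2 x y1 y2 _ (hf x y1 hq.1 h1) (by rw [h]; exact hf x y2 hq.1 h2))
      have := hfree T hT hTc
      omega
  have cover : H ⊆ H.filter (fun t => (Xy t.2.1).card ≤ M) ∪
      H.filter (fun t => (Yx t.1).card ≤ M) := by
    rintro ⟨x, y, z⟩ ht
    rw [mem_union, mem_filter, mem_filter]
    by_contra hcon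
    push Not at hcon
    have h1 := hcon.1 ht
    have h2 := hcon.2 ht
    simp only at h1 h2
    have h3 := key x y z ht (lt_of_le_of_lt (le_max_right _ _) h2)
    have h4 : Nat.sqrt n < (Xy y).card := lt_of_le_of_lt (le_max_left _ _) h1
    have h5 : Nat.sqrt n < (Yx x).card := lt_of_le_of_lt (le_max_left _ _) h2
    have h6 := Nat.lt_succ_sqrt n
    have h7 : (Nat.sqrt n).succ * (Nat.sqrt n).succ ≤ (Xy y).card * (Yx x).card :=
      Nat.mul_le_mul h4 h5
    omega
  have c1 : (H.filter (fun t => (Xy t.2.1).card ≤ M)).card ≤ M * n := by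
    refine (Finset.card_le_mul_card_image (f := fun t : X × Y × Z => t.2.1) _ M ?_).trans
      (Nat.mul_le_mul_left M ((card_le_univ _).trans hY))
    intro y hy
    obtain ⟨t, ht, rfl⟩ := mem_image.mp hy
    refine le_trans ?_ (mem_filter.mp ht).2
    refine Finset.card_le_card_of_injOn (fun t => t.1) ?_ ?_
    · rintro ⟨x, y, z⟩ h
      have h' := mem_coe.mp h
      rw [mem_filter, mem_filter] at h'
      simp only at h'
      refine mem_coe.mpr (mem_filter.mpr ⟨mem_univ _, z, ?_⟩)
      rw [← h'.2]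
      exact h'.1.1
    · rintro ⟨x, y, z⟩ h ⟨x', y', z'⟩ h' heq
      have g1 := mem_coe.mp h
      have g2 := mem_coe.mp h'
      rw [mem_filter, mem_filter] at g1 g2
      simp only at g1 g2 heq
      subst heq
      have hyy : y = y' := g1.2.trans g2.2.symm
      subst hyy
      rw [L1 x y z z' g1.1.1 g2.1.1]
  have c2 : (H.filter (fun t => (Yx t.1).card ≤ M)).card ≤ M * n := by
    refine (Finset.card_le_mul_card_image (f := fun t : X × Y × Z => t.1) _ M ?_).trans
      (Nat.mul_le_mul_left M ((card_le_univ _).trans hX))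
    intro x hx
    obtain ⟨t, ht, rfl⟩ := mem_image.mp hx
    refine le_trans ?_ (mem_filter.mp ht).2
    refine Finset.card_le_card_of_injOn (fun t => t.2.1) ?_ ?_
    · rintro ⟨x, y, z⟩ h
      have h' := mem_coe.mp h
      rw [mem_filter, mem_filter] at h'
      simp only at h'
      refine mem_coe.mpr (mem_filter.mpr ⟨mem_univ _, z, ?_⟩)
      rw [← h'.2]
      exact h'.1.1
    · rintro ⟨x, y, z⟩ h ⟨x', y', z'⟩ h' heq
      have g1 := mem_coe.mp h
      have g2 := mem_coe.mp h'
      rw [mem_filter, mem_filter] at g1 g2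
      simp only at g1 g2 heq
      subst heq
      have hxx : x = x' := g1.2.trans g2.2.symm
      subst hxx
      rw [L1 x y z z' g1.1.1 g2.1.1]
  have c3 := (card_le_card cover).trans (card_union_le _ _)
  have c4 : 2 * n * M = M * n + M * n := by ring
  omega

end Pool.Agent.X27.MV
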