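import Pool.Agent.X27.MV.Core

/-! Triple systems closed under Mal'cev operations: the general bound, and the examples. -/

set_option autoImplicit false

namespace Pool.Agent.X27.MV

open Finset Classical

universe u v w

/-- `H` is closed under the componentwise application of three Mal'cev operations, one on each
part. -/
def MaltsevClosed {X : Type u} {Y : Type v} {Z : Type w} (H : Finset (X × Y × Z)) : Prop :=
  ∃ (p : X → X → X → X) (q : Y → Y → Y → Y) (r : Z → Z → Z → Z),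
    (∀ a b, p a b b = a ∧ p b b a = a) ∧ (∀ a b, q a b b = a ∧ q b b a = a) ∧
    (∀ a b, r a b b = a ∧ r b b a = a) ∧
    ∀ s ∈ H, ∀ t ∈ H, ∀ t' ∈ H,
      (p s.1 t.1 t'.1, q s.2.1 t.2.1 t'.2.1, r s.2.2 t.2.2 t'.2.2) ∈ H

/-- Two different triples of `H` share at most one vertex. -/
def Linear {X : Type u} {Y : Type v} {Z : Type w} (H : Finset (X × Y × Z)) : Prop :=
  (∀ x y z z', (x, y, z) ∈ H → (x, y, z') ∈ H → z = z') ∧
  (∀ x y y' z, (x, y, z) ∈ H → (x, y', z) ∈ H → y = y') ∧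
  (∀ x x' y z, (x, y, z) ∈ H → (x', y, z) ∈ H → x = x')

section
variable {X : Type u} {Y : Type v} {Z : Type w} {H : Finset (X × Y × Z)}

theorem facts (h : MaltsevClosed H) :
    (∀ x x' y y' z z' z'', (x, y, z) ∈ H → (x', y, z') ∈ H → (x', y', z'') ∈ H →
      ∃ z''', (x, y', z''') ∈ H) ∧
    (∀ x x' y1 y y' z1 z, (x, y1, z1) ∈ H → (x, y, z) ∈ H → (x', y', z) ∈ H →
      ∃ y2, (x', y2, z1) ∈ H) ∧
    (∀ x y z z', (x, y, z) ∈ H → (x, y, z') ∈ H → ∀ a b, (a, b, z) ∈ H → (a, b, z') ∈ H) ∧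
    (∀ x y y' z, (x, y, z) ∈ H → (x, y', z) ∈ H → ∀ a b, (a, y, b) ∈ H → (a, y', b) ∈ H) ∧
    (∀ x x' y z, (x, y, z) ∈ H → (x', y, z) ∈ H → ∀ a b, (x, a, b) ∈ H → (x', a, b) ∈ H) := by
  obtain ⟨p, q, r, hp, hq, hr, hc⟩ := h
  refine ⟨?_, ?_, ?_, ?_, ?_⟩
  · intro x x' y y' z z' z'' h1 h2 h3
    have := hc _ h1 _ h2 _ h3
    simp only [(hp x x').1, (hq y' y).2] at this
    exact ⟨_, this⟩
  · intro x x' y1 y y' z1 z h1 h2 h3
    have := hc _ h1 _ h2 _ h3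
    simp only [(hp x' x).2, (hr z1 z).1] at this
    exact ⟨_, this⟩
  · intro x y z z' h1 h2 a b h3
    have := hc _ h3 _ h1 _ h2
    simpa only [(hp a x).1, (hq b y).1, (hr z' z).2] using this
  · intro x y y' z h1 h2 a b h3
    have := hc _ h3 _ h1 _ h2
    simpa only [(hp a x).1, (hq y' y).2, (hr b z).1] using this
  · intro x x' y z h1 h2 a b h3
    have := hc _ h3 _ h1 _ h2
    simpa only [(hp x' x).2, (hq a y).1, (hr b z).1] using this

theorem exists_rep {α : Type u} {β : Type v} (N : α → β) :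
    ∃ a : α → α, (∀ x, N (a x) = N x) ∧ ∀ x x', N x = N x' → a x = a x' := by
  rcases isEmpty_or_nonempty α with hα | hα
  · exact ⟨fun x => x, fun x => (hα.false x).elim, fun x => (hα.false x).elim⟩
  · refine ⟨fun x => Classical.epsilon (fun x' => N x' = N x), fun x => ?_, fun x x' h => ?_⟩
    · exact Classical.epsilon_spec (p := fun x' => N x' = N x) ⟨x, rfl⟩
    · simp only [h]

theorem small {e : ℕ} {α : Type*} (hfree : ∀ T ⊆ H, T.card = e → e + 3 < spanned T)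
    (U : Finset α) (φ : α → X × Y × Z) (hφ : Function.Injective φ) (hU : ∀ x ∈ U, φ x ∈ H)
    (hs : ∀ V ⊆ U, spanned (V.image φ) ≤ V.card + 2) : U.card ≤ e - 1 := by
  by_contra hcon
  obtain ⟨V, hV, hVc⟩ := Finset.exists_subset_card_eq (s := U) (n := e) (by omega)
  have h1 := hfree (V.image φ) (fun t ht => by
    obtain ⟨x, hx, rfl⟩ := mem_image.mp ht
    exact hU x (hV hx)) (by rw [card_image_of_injective _ hφ, hVc])
  have h2 := hs V hV
  omega

theorem linear [Fintype X] [Fintype Y] [Fintype Z] (e n : ℕ) (hX : Fintype.card X ≤ n)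
    (hY : Fintype.card Y ≤ n) (hZ : Fintype.card Z ≤ n) (h : MaltsevClosed H) (hl : Linear H)
    (hfree : ∀ T ⊆ H, T.card = e → e + 3 < spanned T) :
    H.card ≤ 2 * n * max (Nat.sqrt n) (e / 2) :=
  core H e n hX hY hZ hl.1 hl.2.1 (facts h).1 (facts h).2.1 hfree

end

/-! ### The examples -/

/-- The triple system of the points of a cube: the vertices are the axis-parallel lines. -/
noncomputable def cube (k : ℕ) : Finset ((Fin k × Fin k) × (Fin k × Fin k) × (Fin k × Fin k)) :=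
  univ.image (fun q : Fin k × Fin k × Fin k => ((q.1, q.2.1), (q.1, q.2.2), (q.2.1, q.2.2)))

theorem mem_cube (k : ℕ) (a b c d e f : Fin k) :
    ((a, b), (c, d), (e, f)) ∈ cube k ↔ a = c ∧ b = e ∧ d = f := by
  unfold cube
  rw [mem_image]
  constructor
  · rintro ⟨q, -, h⟩
    simp only [Prod.mk.injEq] at h
    obtain ⟨⟨rfl, rfl⟩, ⟨rfl, rfl⟩, rfl, rfl⟩ := h
    exact ⟨rfl, rfl, rfl⟩
  · rintro ⟨rfl, rfl, rfl⟩
    exact ⟨(a, b, d), mem_univ _, rfl⟩

theorem cube_card (k : ℕ) : (cube k).card = k ^ 3 := by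
  unfold cube
  rw [card_image_of_injective]
  · simp [card_univ]; ring
  · rintro ⟨a, b, c⟩ ⟨a', b', c'⟩ h
    simp only [Prod.mk.injEq] at h ⊢
    exact ⟨h.1.1, h.1.2, h.2.1.2⟩

theorem cube_closed (k : ℕ) : MaltsevClosed (cube k) := by
  let m : Fin k → Fin k → Fin k → Fin k := fun a b c => if b = c then a else c
  have hm : ∀ a b, m a b b = a ∧ m b b a = a := by
    intro a b
    refine ⟨by simp [m], ?_⟩
    by_cases h : b = a
    · simp [m, h]
    · simp [m, h]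
  refine ⟨fun a b c => (m a.1 b.1 c.1, m a.2 b.2 c.2), fun a b c => (m a.1 b.1 c.1, m a.2 b.2 c.2),
    fun a b c => (m a.1 b.1 c.1, m a.2 b.2 c.2), ?_, ?_, ?_, ?_⟩
  · intro a b
    simp only [(hm _ _).1, (hm _ _).2, Prod.mk.eta, and_self]
  · intro a b
    simp only [(hm _ _).1, (hm _ _).2, Prod.mk.eta, and_self]
  · intro a b
    simp only [(hm _ _).1, (hm _ _).2, Prod.mk.eta, and_self]
  · rintro ⟨⟨a1, b1⟩, ⟨c1, d1⟩, e1, f1⟩ h1 ⟨⟨a2, b2⟩, ⟨c2, d2⟩, e2, f2⟩ h2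
      ⟨⟨a3, b3⟩, ⟨c3, d3⟩, e3, f3⟩ h3
    rw [mem_cube] at h1 h2 h3 ⊢
    obtain ⟨rfl, rfl, rfl⟩ := h1
    obtain ⟨rfl, rfl, rfl⟩ := h2
    obtain ⟨rfl, rfl, rfl⟩ := h3
    exact ⟨rfl, rfl, rfl⟩

theorem cube_linear (k : ℕ) : Linear (cube k) := by
  refine ⟨?_, ?_, ?_⟩
  · rintro ⟨a, b⟩ ⟨c, d⟩ ⟨e, f⟩ ⟨e', f'⟩ h1 h2
    rw [mem_cube] at h1 h2
    simp only [Prod.mk.injEq]
    exact ⟨h1.2.1.symm.trans h2.2.1, h1.2.2.symm.trans h2.2.2⟩
  · rintro ⟨a, b⟩ ⟨c, d⟩ ⟨c', d'⟩ ⟨e, f⟩ h1 h2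
    rw [mem_cube] at h1 h2
    simp only [Prod.mk.injEq]
    exact ⟨h1.1.symm.trans h2.1, h1.2.2.trans h2.2.2.symm⟩
  · rintro ⟨a, b⟩ ⟨a', b'⟩ ⟨c, d⟩ ⟨e, f⟩ h1 h2
    rw [mem_cube] at h1 h2
    simp only [Prod.mk.injEq]
    exact ⟨h1.1.trans h2.1.symm, h1.2.1.trans h2.2.1.symm⟩

/-- The number of elements of an image does not depend on the decision procedure. -/
theorem ci {α β : Type*} (i1 i2 : DecidableEq β) (f : α → β) (S : Finset α) :
    (@Finset.image α β i1 f S).card = (@Finset.image α β i2 f S).card := by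
  have : i1 = i2 := Subsingleton.elim _ _
  rw [this]

end Pool.Agent.X27.MV
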