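import Pool.Agent.X27.MV.Gen

/-! Triple systems closed under Mal'cev operations: linear bounds for larger configurations. -/

set_option autoImplicit false

namespace Pool.Agent.X27.MV

open Finset Classical

universe u v w

section
variable {X : Type u} {Y : Type v} {Z : Type w} {H : Finset (X × Y × Z)}

/-- A triple whose vertices have large degrees lies in a grid. -/
theorem grid [Fintype X] [Fintype Y] [Fintype Z] (e : ℕ) (L i1 j1 : ℕ) (hi1 : i1 ≤ 3)
    (hj1 : j1 ≤ 3) (he1 : e ≤ 9 * L + i1 * j1) (he2 : 6 * L + i1 + j1 + 6 ≤ e)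
    (h : MaltsevClosed H) (hl : Linear H)
    (hfree : ∀ T ⊆ H, T.card = e → e + 3 < spanned T) (x0 : X) (y0 : Y) (z0 : Z)
    (h0 : (x0, y0, z0) ∈ H)
    (d1 : e / 2 < (univ.filter (fun y => ∃ z, (x0, y, z) ∈ H)).card)
    (d2 : 2 < (univ.filter (fun x => ∃ z, (x, y0, z) ∈ H)).card)
    (d3 : L < (univ.filter (fun x => ∃ y, (x, y, z0) ∈ H)).card) : False := by
  obtain ⟨R1, -, -, -, -⟩ := facts h
  obtain ⟨p, q, r, hp, hq, hr, hc⟩ := h
  obtain ⟨L1, L2, L3⟩ := hl
  have c1 : ∀ y, ∃ z, (∃ z, (x0, y, z) ∈ H) → (x0, y, z) ∈ H := fun y => by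
    by_cases g : ∃ z, (x0, y, z) ∈ H
    · obtain ⟨z, hz⟩ := g
      exact ⟨z, fun _ => hz⟩
    · exact ⟨z0, fun g' => absurd g' g⟩
  have c2 : ∀ x, ∃ z, (∃ z, (x, y0, z) ∈ H) → (x, y0, z) ∈ H := fun x => by
    by_cases g : ∃ z, (x, y0, z) ∈ H
    · obtain ⟨z, hz⟩ := g
      exact ⟨z, fun _ => hz⟩
    · exact ⟨z0, fun g' => absurd g' g⟩
  have c3 : ∀ x, ∃ y, (∃ y, (x, y, z0) ∈ H) → (x, y, z0) ∈ H := fun x => by
    by_cases g : ∃ y, (x, y, z0) ∈ H
    · obtain ⟨y, hy⟩ := g
      exact ⟨y, fun _ => hy⟩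
    · exact ⟨y0, fun g' => absurd g' g⟩
  choose z1 hz1 using c1
  choose z2 hz2 using c2
  choose y3 hy3 using c3
  set A := univ.filter (fun y => ∃ z, (x0, y, z) ∈ H) with hA
  set B := univ.filter (fun x => ∃ z, (x, y0, z) ∈ H) with hB
  set C := univ.filter (fun x => ∃ y, (x, y, z0) ∈ H) with hC
  have mA : ∀ y ∈ A, (x0, y, z1 y) ∈ H := fun y hy => hz1 y (mem_filter.mp hy).2
  have mB : ∀ x ∈ B, (x, y0, z2 x) ∈ H := fun x hx => hz2 x (mem_filter.mp hx).2
  have mC : ∀ x ∈ C, (x, y3 x, z0) ∈ H := fun x hx => hy3 x (mem_filter.mp hx).2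
  let k : Y → X → Z := fun y x => r (z1 y) z0 (z2 x)
  have plane : ∀ y ∈ A, ∀ x ∈ B, (x, y, k y x) ∈ H := by
    intro y hy x hx
    have := hc _ (mA y hy) _ h0 _ (mB x hx)
    simpa only [(hp x x0).2, (hq y y0).1] using this
  have cubeT : ∀ y ∈ A, ∀ x ∈ B, ∀ x' ∈ C, (p x x0 x', q y y0 (y3 x'), k y x) ∈ H := by
    intro y hy x hx x' hx'
    have := hc _ (plane y hy x hx) _ h0 _ (mC x' hx')
    simpa only [(hr (k y x) z0).1] using this
  have x0B : x0 ∈ B := mem_filter.mpr ⟨mem_univ _, z0, h0⟩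
  have kinj : ∀ y ∈ A, ∀ x ∈ B, ∀ y' ∈ A, ∀ x' ∈ B, k y x = k y' x' → y = y' ∧ x = x' := by
    intro y hy x hx y' hy' x' hx' hk
    have e1 := plane y hy x hx
    have e2 := plane y' hy' x' hx'
    rw [← hk] at e2
    by_cases hxx : x = x'
    · subst hxx
      exact ⟨L2 x y y' _ e1 e2, rfl⟩
    · exfalso
      have hσ : ∀ y1 ∈ A, (x', q y1 y y', k y1 x) ∈ H := by
        intro y1 hy1
        have := hc _ (plane y1 hy1 x hx) _ e1 _ e2
        simpa only [(hp x' x).2, (hr (k y1 x) (k y x)).1] using this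
      obtain ⟨T, hT, hTc, hTs⟩ := config H e x x' hxx A d1 (fun y1 => k y1 x)
        (fun y1 => q y1 y y') (fun y1 h => plane y1 h x hx)
        (fun y1 h => mem_filter.mpr ⟨mem_univ _,
          R1 x0 x' y0 (q y1 y y') z0 (z2 x') _ h0 (mB x' hx') (hσ y1 h)⟩)
        hσ
        (fun y1 g1 y2 g2 g => L2 x y1 y2 _ (plane y1 g1 x hx) (by
          have g' : k y1 x = k y2 x := g
          rw [g']; exact plane y2 g2 x hx))
      have := hfree T hT hTc
      omega
  have pinj : ∀ y ∈ A, ∀ x ∈ B, ∀ x1 ∈ C, ∀ x2 ∈ C, p x x0 x1 = p x x0 x2 → x1 = x2 := by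
    intro y hy x hx x1 hx1 x2 hx2 hpp
    have e1 := cubeT y hy x hx x1 hx1
    have e2 := cubeT y hy x hx x2 hx2
    rw [← hpp] at e2
    have e3 := L2 _ _ _ _ e1 e2
    have e4 := cubeT y hy x0 x0B x1 hx1
    have e5 := cubeT y hy x0 x0B x2 hx2
    rw [← e3] at e5
    have e6 := L3 _ _ _ _ e4 e5
    rwa [(hp x1 x0).2, (hp x2 x0).2] at e6
  obtain ⟨I, hI, hIc⟩ := Finset.exists_subset_card_eq (s := A) (n := 3) (by omega)
  obtain ⟨J, hJ, hJc⟩ := Finset.exists_subset_card_eq (s := B) (n := 3) (by omega)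
  obtain ⟨K, hK, hKc⟩ := Finset.exists_subset_card_eq (s := C) (n := L) (by omega)
  obtain ⟨l, hl, hlK⟩ := Finset.exists_mem_notMem_of_card_lt_card (s := K) (t := C)
    (by omega)
  obtain ⟨I1, hI1, hI1c⟩ := Finset.exists_subset_card_eq (s := I) (n := i1) (by omega)
  obtain ⟨J1, hJ1, hJ1c⟩ := Finset.exists_subset_card_eq (s := J) (n := j1) (by omega)
  obtain ⟨E, hE, hEc⟩ := Finset.exists_subset_card_eq
    (s := (I ×ˢ (J ×ˢ K)) ∪ (I1 ×ˢ (J1 ×ˢ {l}))) (n := e) (by
      rw [card_union_of_disjoint, card_product, card_product, card_product, card_product, hIc,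
        hJc, hKc, hI1c, hJ1c, card_singleton]
      · have : i1 * (j1 * 1) = i1 * j1 := by ring
        rw [this]
        omega
      · rw [Finset.disjoint_left]
        intro t ht ht'
        simp only [mem_product, mem_singleton] at ht ht'
        exact hlK (ht'.2.2 ▸ ht.2.2))
  have hE' : ∀ t ∈ E, (t.1 ∈ I ∧ t.2.1 ∈ J ∧ t.2.2 ∈ K) ∨
      (t.1 ∈ I1 ∧ t.2.1 ∈ J1 ∧ t.2.2 = l) := by
    intro t ht
    have := hE ht
    simpa only [mem_union, mem_product, mem_singleton] using this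
  have hE3 : ∀ t ∈ E, t.1 ∈ A ∧ t.2.1 ∈ B ∧ t.2.2 ∈ C := by
    intro t ht
    rcases hE' t ht with g | g
    · exact ⟨hI g.1, hJ g.2.1, hK g.2.2⟩
    · exact ⟨hI (hI1 g.1), hJ (hJ1 g.2.1), g.2.2 ▸ hl⟩
  let φ : Y × X × X → X × Y × Z :=
    fun t => (p t.2.1 x0 t.2.2, q t.1 y0 (y3 t.2.2), k t.1 t.2.1)
  have hfin := hfree (E.image φ) ?_ ?_
  · have s1 : ((E.image φ).image (fun t => t.1)).card ≤ 3 * L + j1 := by
      rw [image_image]
      refine (card_le_card (t := (J ×ˢ K ∪ J1 ×ˢ {l}).image (fun t => p t.1 x0 t.2)) ?_).trans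
        (card_image_le.trans ((card_union_le _ _).trans ?_))
      · intro a ha
        obtain ⟨t, ht, rfl⟩ := mem_image.mp ha
        refine mem_image.mpr ⟨(t.2.1, t.2.2), ?_, rfl⟩
        rcases hE' t ht with g | g
        · exact mem_union_left _ (mem_product.mpr ⟨g.2.1, g.2.2⟩)
        · exact mem_union_right _ (mem_product.mpr ⟨g.2.1, mem_singleton.mpr g.2.2⟩)
      · rw [card_product, card_product, hJc, hKc, hJ1c, card_singleton]
        omega
    have s2 : ((E.image φ).image (fun t => t.2.1)).card ≤ 3 * L + i1 := by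
      rw [image_image]
      refine (card_le_card (t := (I ×ˢ K ∪ I1 ×ˢ {l}).image
        (fun t => q t.1 y0 (y3 t.2))) ?_).trans
        (card_image_le.trans ((card_union_le _ _).trans ?_))
      · intro a ha
        obtain ⟨t, ht, rfl⟩ := mem_image.mp ha
        refine mem_image.mpr ⟨(t.1, t.2.2), ?_, rfl⟩
        rcases hE' t ht with g | g
        · exact mem_union_left _ (mem_product.mpr ⟨g.1, g.2.2⟩)
        · exact mem_union_right _ (mem_product.mpr ⟨g.1, mem_singleton.mpr g.2.2⟩)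
      · rw [card_product, card_product, hIc, hKc, hI1c, card_singleton]
        omega
    have s3 : ((E.image φ).image (fun t => t.2.2)).card ≤ 9 := by
      rw [image_image]
      refine (card_le_card (t := (I ×ˢ J).image (fun t => k t.1 t.2)) ?_).trans
        (card_image_le.trans ?_)
      · intro a ha
        obtain ⟨t, ht, rfl⟩ := mem_image.mp ha
        refine mem_image.mpr ⟨(t.1, t.2.1), ?_, rfl⟩
        rcases hE' t ht with g | g
        · exact mem_product.mpr ⟨g.1, g.2.1⟩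
        · exact mem_product.mpr ⟨hI1 g.1, hJ1 g.2.1⟩
      · rw [card_product, hIc, hJc]
    unfold spanned at hfin
    omega
  · intro t ht
    obtain ⟨s, hs, rfl⟩ := mem_image.mp ht
    obtain ⟨g1, g2, g3⟩ := hE3 s hs
    exact cubeT _ g1 _ g2 _ g3
  · rw [card_image_of_injOn, hEc]
    rintro ⟨a, b, c⟩ hs ⟨a', b', c'⟩ hs' heq
    obtain ⟨g1, g2, g3⟩ := hE3 _ (mem_coe.mp hs)
    obtain ⟨g1', g2', g3'⟩ := hE3 _ (mem_coe.mp hs')
    simp only [φ, Prod.mk.injEq] at heq g1 g2 g3 g1' g2' g3'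
    obtain ⟨rfl, rfl⟩ := kinj a g1 b g2 a' g1' b' g2' heq.2.2
    rw [pinj a g1 b g2 c g3 c' g3' heq.1]

/-- The number of points outside the full layers. -/
theorem params (e : ℕ) (he : e = 18 ∨ 22 ≤ e) : ∃ i1 j1 : ℕ, i1 ≤ 3 ∧ j1 ≤ 3 ∧
    e ≤ 9 * ((e - 1) / 9) + i1 * j1 ∧ 6 * ((e - 1) / 9) + i1 + j1 + 6 ≤ e := by
  by_cases h1 : e = 22
  · subst h1; exact ⟨2, 2, by norm_num⟩
  by_cases h2 : e = 23
  · subst h2; exact ⟨2, 3, by norm_num⟩
  by_cases h3 : e = 28
  · subst h3; exact ⟨1, 1, by norm_num⟩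
  by_cases h4 : e = 29
  · subst h4; exact ⟨1, 2, by norm_num⟩
  exact ⟨3, 3, le_rfl, le_rfl, by omega, by omega⟩

/-- Linear systems, larger configurations. -/
theorem linear2 [Fintype X] [Fintype Y] [Fintype Z] (e n : ℕ)
    (he : e = 18 ∨ 22 ≤ e) (hX : Fintype.card X ≤ n)
    (hY : Fintype.card Y ≤ n) (hZ : Fintype.card Z ≤ n) (h : MaltsevClosed H) (hl : Linear H)
    (hfree : ∀ T ⊆ H, T.card = e → e + 3 < spanned T) :
    H.card ≤ (e / 2 + (e - 1) / 9 + 2) * n := by
  obtain ⟨i1, j1, hi1, hj1, he1, he2⟩ := params e he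
  have hg := grid e ((e - 1) / 9) i1 j1 hi1 hj1 he1 he2 h hl hfree
  let P : X → Finset Y := fun x => univ.filter (fun y => ∃ z, (x, y, z) ∈ H)
  let Q : Y → Finset X := fun y => univ.filter (fun x => ∃ z, (x, y, z) ∈ H)
  let R : Z → Finset X := fun z => univ.filter (fun x => ∃ y, (x, y, z) ∈ H)
  have cover : H ⊆ H.filter (fun t => (P t.1).card ≤ e / 2) ∪
      (H.filter (fun t => (Q t.2.1).card ≤ 2) ∪
        H.filter (fun t => (R t.2.2).card ≤ (e - 1) / 9)) := by
    rintro ⟨x, y, z⟩ ht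
    rw [mem_union, mem_union, mem_filter, mem_filter, mem_filter]
    by_contra hcon
    push Not at hcon
    exact hg x y z ht (hcon.1 ht) (hcon.2.1 ht) (hcon.2.2 ht)
  have b1 : (H.filter (fun t => (P t.1).card ≤ e / 2)).card ≤ (e / 2) * n := by
    refine (Finset.card_le_mul_card_image (f := fun t : X × Y × Z => t.1) _ (e / 2) ?_).trans
      (Nat.mul_le_mul_left _ ((card_le_univ _).trans hX))
    intro x hx
    obtain ⟨t, ht, rfl⟩ := mem_image.mp hx
    refine le_trans ?_ (mem_filter.mp ht).2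
    refine Finset.card_le_card_of_injOn (fun t => t.2.1) ?_ ?_
    · rintro ⟨x, y, z⟩ h
      have h' := mem_coe.mp h
      rw [mem_filter, mem_filter] at h'
      simp only at h'
      refine mem_coe.mpr (mem_filter.mpr ⟨mem_univ _, z, ?_⟩)
      rw [← h'.2]
      exact h'.1.1
    · rintro ⟨x, y, z⟩ h ⟨x', y', z'⟩ h' heq
      have g1 := mem_coe.mp h
      have g2 := mem_coe.mp h'
      rw [mem_filter, mem_filter] at g1 g2
      simp only at g1 g2 heq
      subst heq
      have hxx : x = x' := g1.2.trans g2.2.symm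
      subst hxx
      rw [hl.1 x y z z' g1.1.1 g2.1.1]
  have b2 : (H.filter (fun t => (Q t.2.1).card ≤ 2)).card ≤ 2 * n := by
    refine (Finset.card_le_mul_card_image (f := fun t : X × Y × Z => t.2.1) _ 2 ?_).trans
      (Nat.mul_le_mul_left _ ((card_le_univ _).trans hY))
    intro y hy
    obtain ⟨t, ht, rfl⟩ := mem_image.mp hy
    refine le_trans ?_ (mem_filter.mp ht).2
    refine Finset.card_le_card_of_injOn (fun t => t.1) ?_ ?_
    · rintro ⟨x, y, z⟩ h
      have h' := mem_coe.mp h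
      rw [mem_filter, mem_filter] at h'
      simp only at h'
      refine mem_coe.mpr (mem_filter.mpr ⟨mem_univ _, z, ?_⟩)
      rw [← h'.2]
      exact h'.1.1
    · rintro ⟨x, y, z⟩ h ⟨x', y', z'⟩ h' heq
      have g1 := mem_coe.mp h
      have g2 := mem_coe.mp h'
      rw [mem_filter, mem_filter] at g1 g2
      simp only at g1 g2 heq
      subst heq
      have hyy : y = y' := g1.2.trans g2.2.symm
      subst hyy
      rw [hl.1 x y z z' g1.1.1 g2.1.1]
  have b3 : (H.filter (fun t => (R t.2.2).card ≤ (e - 1) / 9)).card ≤ ((e - 1) / 9) * n := by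
    refine (Finset.card_le_mul_card_image (f := fun t : X × Y × Z => t.2.2) _ ((e - 1) / 9)
      ?_).trans (Nat.mul_le_mul_left _ ((card_le_univ _).trans hZ))
    intro z hz
    obtain ⟨t, ht, rfl⟩ := mem_image.mp hz
    refine le_trans ?_ (mem_filter.mp ht).2
    refine Finset.card_le_card_of_injOn (fun t => t.1) ?_ ?_
    · rintro ⟨x, y, z⟩ h
      have h' := mem_coe.mp h
      rw [mem_filter, mem_filter] at h'
      simp only at h'
      refine mem_coe.mpr (mem_filter.mpr ⟨mem_univ _, y, ?_⟩)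
      rw [← h'.2]
      exact h'.1.1
    · rintro ⟨x, y, z⟩ h ⟨x', y', z'⟩ h' heq
      have g1 := mem_coe.mp h
      have g2 := mem_coe.mp h'
      rw [mem_filter, mem_filter] at g1 g2
      simp only at g1 g2 heq
      subst heq
      have hzz : z = z' := g1.2.trans g2.2.symm
      subst hzz
      rw [hl.2.1 x y y' z g1.1.1 g2.1.1]
  have s1 := (card_le_card cover).trans (card_union_le _ _)
  have s2 := card_union_le (H.filter (fun t => (Q t.2.1).card ≤ 2))
    (H.filter (fun t => (R t.2.2).card ≤ (e - 1) / 9))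
  have s3 : (e / 2 + (e - 1) / 9 + 2) * n = (e / 2) * n + (2 * n + ((e - 1) / 9) * n) := by ring
  omega

theorem fixOp {α : Type*} (m : α → α → α → α) (d : α → α)
    (hm : ∀ u v, m u v v = u ∧ m v v u = u) : ∃ m' : α → α → α → α,
    (∀ u v, m' u v v = u ∧ m' v v u = u) ∧
    ∀ u v t, d u = u → d t = t → m' u v t = d (m u v t) := by
  refine ⟨fun u v t => if v = t then u else if u = v then t else d (m u v t), ?_, ?_⟩
  · intro u v
    refine ⟨by simp, ?_⟩
    by_cases g : v = u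
    · simp [g]
    · simp [g]
  · intro u v t hu ht
    by_cases g : v = t
    · simp only [if_pos g]
      rw [← g, (hm u v).1, hu]
    · by_cases g' : u = v
      · simp only [if_neg g, if_pos g']
        rw [← g', (hm t u).2, ht]
      · simp only [if_neg g, if_neg g']

theorem reduce [Fintype X] [Fintype Y] [Fintype Z] (e : ℕ) (h : MaltsevClosed H)
    (hfree : ∀ T ⊆ H, T.card = e → e + 3 < spanned T) :
    ∃ H' : Finset (X × Y × Z), H' ⊆ H ∧ MaltsevClosed H' ∧ Linear H' ∧
      H.card ≤ (e - 1) ^ 3 * H'.card := by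
  obtain ⟨R1, R2, D3, D2, D1⟩ := facts h
  obtain ⟨a, ha, ha'⟩ := exists_rep (fun (x : X) (q : Y × Z) => (x, q.1, q.2) ∈ H)
  obtain ⟨b, hb, hb'⟩ := exists_rep (fun (y : Y) (q : X × Z) => (q.1, y, q.2) ∈ H)
  obtain ⟨c, hc, hc'⟩ := exists_rep (fun (z : Z) (q : X × Y) => (q.1, q.2, z) ∈ H)
  have ma : ∀ x y z, (a x, y, z) ∈ H ↔ (x, y, z) ∈ H := fun x y z => by
    have := congrFun (ha x) (y, z)
    simpa using iff_of_eq this
  have mb : ∀ x y z, (x, b y, z) ∈ H ↔ (x, y, z) ∈ H := fun x y z => by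
    have := congrFun (hb y) (x, z)
    simpa using iff_of_eq this
  have mc : ∀ x y z, (x, y, c z) ∈ H ↔ (x, y, z) ∈ H := fun x y z => by
    have := congrFun (hc z) (x, y)
    simpa using iff_of_eq this
  have ia : ∀ x, a (a x) = a x := fun x => ha' _ _ (ha x)
  have ib : ∀ y, b (b y) = b y := fun y => hb' _ _ (hb y)
  have ic : ∀ z, c (c z) = c z := fun z => hc' _ _ (hc z)
  let ρ : X × Y × Z → X × Y × Z := fun t => (a t.1, b t.2.1, c t.2.2)
  have hρ : ∀ x y z, (x, y, z) ∈ H.image ρ ↔ (x, y, z) ∈ H ∧ a x = x ∧ b y = y ∧ c z = z := by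
    intro x y z
    constructor
    · intro ht
      obtain ⟨⟨x', y', z'⟩, ht', he⟩ := mem_image.mp ht
      simp only [ρ, Prod.mk.injEq] at he
      obtain ⟨rfl, rfl, rfl⟩ := he
      exact ⟨(ma _ _ _).mpr ((mb _ _ _).mpr ((mc _ _ _).mpr ht')), ia _, ib _, ic _⟩
    · rintro ⟨h1, h2, h3, h4⟩
      exact mem_image.mpr ⟨(x, y, z), h1, by simp only [ρ, h2, h3, h4]⟩
  refine ⟨H.image ρ, ?_, ?_, ?_, ?_⟩
  · rintro ⟨x, y, z⟩ ht
    exact ((hρ x y z).mp ht).1
  · obtain ⟨p, q, r, hp, hq, hr, hcl⟩ := h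
    obtain ⟨p', hp', hp2⟩ := fixOp p a hp
    obtain ⟨q', hq', hq2⟩ := fixOp q b hq
    obtain ⟨r', hr', hr2⟩ := fixOp r c hr
    refine ⟨p', q', r', hp', hq', hr', ?_⟩
    rintro ⟨x1, y1, z1⟩ h1 ⟨x2, y2, z2⟩ h2 ⟨x3, y3, z3⟩ h3
    obtain ⟨g1, f1, f2, f3⟩ := (hρ _ _ _).mp h1
    obtain ⟨g2, -, -, -⟩ := (hρ _ _ _).mp h2
    obtain ⟨g3, f4, f5, f6⟩ := (hρ _ _ _).mp h3
    simp only
    rw [hp2 x1 x2 x3 f1 f4, hq2 y1 y2 y3 f2 f5, hr2 z1 z2 z3 f3 f6]
    exact mem_image.mpr ⟨_, hcl _ g1 _ g2 _ g3, rfl⟩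
  · refine ⟨?_, ?_, ?_⟩
    · intro x y z z' h1 h2
      obtain ⟨g1, -, -, g2⟩ := (hρ _ _ _).mp h1
      obtain ⟨g3, -, -, g4⟩ := (hρ _ _ _).mp h2
      rw [← g2, ← g4]
      refine hc' _ _ ?_
      funext q
      exact propext ⟨fun g => D3 x y z z' g1 g3 q.1 q.2 g, fun g => D3 x y z' z g3 g1 q.1 q.2 g⟩
    · intro x y y' z h1 h2
      obtain ⟨g1, -, g2, -⟩ := (hρ _ _ _).mp h1
      obtain ⟨g3, -, g4, -⟩ := (hρ _ _ _).mp h2
      rw [← g2, ← g4]
      refine hb' _ _ ?_
      funext q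
      exact propext ⟨fun g => D2 x y y' z g1 g3 q.1 q.2 g, fun g => D2 x y' y z g3 g1 q.1 q.2 g⟩
    · intro x x' y z h1 h2
      obtain ⟨g1, g2, -, -⟩ := (hρ _ _ _).mp h1
      obtain ⟨g3, g4, -, -⟩ := (hρ _ _ _).mp h2
      rw [← g2, ← g4]
      refine ha' _ _ ?_
      funext q
      exact propext ⟨fun g => D1 x x' y z g1 g3 q.1 q.2 g, fun g => D1 x' x y z g3 g1 q.1 q.2 g⟩
  · refine Finset.card_le_mul_card_image (f := ρ) H ((e - 1) ^ 3) ?_
    rintro ⟨x0, y0, z0⟩ ht
    obtain ⟨g0, gx, gy, gz⟩ := (hρ _ _ _).mp ht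
    have cx : (univ.filter (fun x => a x = x0)).card ≤ e - 1 := by
      refine small hfree _ (fun x => (x, y0, z0)) (fun x x' hh => congrArg Prod.fst hh) ?_ ?_
      · intro x hx
        rw [← ma, (mem_filter.mp hx).2]
        exact g0
      · intro V hV
        have s1 : ((V.image (fun x => (x, y0, z0))).image (fun t => t.1)).card ≤ V.card :=
          card_image_le.trans card_image_le
        have s2 : ((V.image (fun x => (x, y0, z0))).image (fun t => t.2.1)).card ≤ 1 := by
          rw [image_image]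
          exact (card_le_card (t := {y0}) (fun y hy => by
            obtain ⟨x, -, rfl⟩ := mem_image.mp hy; simp)).trans (card_singleton _).le
        have s3 : ((V.image (fun x => (x, y0, z0))).image (fun t => t.2.2)).card ≤ 1 := by
          rw [image_image]
          exact (card_le_card (t := {z0}) (fun y hy => by
            obtain ⟨x, -, rfl⟩ := mem_image.mp hy; simp)).trans (card_singleton _).le
        unfold spanned
        omega
    have cy : (univ.filter (fun y => b y = y0)).card ≤ e - 1 := by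
      refine small hfree _ (fun y => (x0, y, z0))
        (fun x x' hh => congrArg (fun t : X × Y × Z => t.2.1) hh) ?_ ?_
      · intro y hy
        rw [← mb, (mem_filter.mp hy).2]
        exact g0
      · intro V hV
        have s1 : ((V.image (fun y => (x0, y, z0))).image (fun t => t.2.1)).card ≤ V.card :=
          card_image_le.trans card_image_le
        have s2 : ((V.image (fun y => (x0, y, z0))).image (fun t => t.1)).card ≤ 1 := by
          rw [image_image]
          exact (card_le_card (t := {x0}) (fun y hy => by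
            obtain ⟨x, -, rfl⟩ := mem_image.mp hy; simp)).trans (card_singleton _).le
        have s3 : ((V.image (fun y => (x0, y, z0))).image (fun t => t.2.2)).card ≤ 1 := by
          rw [image_image]
          exact (card_le_card (t := {z0}) (fun y hy => by
            obtain ⟨x, -, rfl⟩ := mem_image.mp hy; simp)).trans (card_singleton _).le
        unfold spanned
        omega
    have cz : (univ.filter (fun z => c z = z0)).card ≤ e - 1 := by
      refine small hfree _ (fun z => (x0, y0, z))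
        (fun x x' hh => congrArg (fun t : X × Y × Z => t.2.2) hh) ?_ ?_
      · intro z hz
        rw [← mc, (mem_filter.mp hz).2]
        exact g0
      · intro V hV
        have s1 : ((V.image (fun z => (x0, y0, z))).image (fun t => t.2.2)).card ≤ V.card :=
          card_image_le.trans card_image_le
        have s2 : ((V.image (fun z => (x0, y0, z))).image (fun t => t.1)).card ≤ 1 := by
          rw [image_image]
          exact (card_le_card (t := {x0}) (fun y hy => by
            obtain ⟨x, -, rfl⟩ := mem_image.mp hy; simp)).trans (card_singleton _).le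
        have s3 : ((V.image (fun z => (x0, y0, z))).image (fun t => t.2.1)).card ≤ 1 := by
          rw [image_image]
          exact (card_le_card (t := {y0}) (fun y hy => by
            obtain ⟨x, -, rfl⟩ := mem_image.mp hy; simp)).trans (card_singleton _).le
        unfold spanned
        omega
    have hfib : H.filter (fun t => ρ t = (x0, y0, z0)) ⊆
        (univ.filter (fun x => a x = x0)) ×ˢ ((univ.filter (fun y => b y = y0)) ×ˢ
          (univ.filter (fun z => c z = z0))) := by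
      rintro ⟨x, y, z⟩ hh
      have := (mem_filter.mp hh).2
      simp only [ρ, Prod.mk.injEq] at this
      simp [this]
    refine (card_le_card hfib).trans ?_
    rw [card_product, card_product]
    calc _ ≤ (e - 1) * ((e - 1) * (e - 1)) := Nat.mul_le_mul cx (Nat.mul_le_mul cy cz)
      _ = (e - 1) ^ 3 := by ring

end

end Pool.Agent.X27.MV
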